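import Pool.Agent.helper66.WD.Spec
import Pool.Agent.helper44.VC.RTF

/-!
# MP_dc9173_lc, row wd:RTW: from `k(ε)` to `k((ε))` for sums of products of powers
-/

set_option autoImplicit false

universe u

namespace Pool.Agent.WD

open MvPolynomial Pool.Agent.helper92.VC
open scoped RatFunc

theorem RTW_roabp {K L : Type*} [CommRing K] [CommRing L] {n : ℕ} (τ : Equiv.Perm (Fin n)) (w : ℕ)
    (j : K →+* L) (A : MvPolynomial (Fin n) K) (h : IsROABPOrd τ w A) :
    IsROABPOrd τ w (MvPolynomial.map j A) := by
  obtain ⟨M, u, v, rfl⟩ := h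
  refine ⟨fun i => (M i).map (Polynomial.map j), fun s => j (u s), fun s => j (v s), ?_⟩
  rw [RingHom.map_dotProduct]
  have h1 : (⇑(MvPolynomial.map j) ∘ fun s => (C (u s) : MvPolynomial (Fin n) K)) =
      fun s => C (j (u s)) := by
    funext s
    simp
  have h2 : (⇑(MvPolynomial.map j) ∘ fun s => (C (v s) : MvPolynomial (Fin n) K)) =
      fun s => C (j (v s)) := by
    funext s
    simp
  have h3 : ((List.ofFn fun i : Fin n =>
        (M i).map fun p => Polynomial.aeval (X (τ i) : MvPolynomial (Fin n) K) p).prod).map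
        (MvPolynomial.map j) = (List.ofFn fun i : Fin n =>
        ((M i).map (Polynomial.map j)).map fun p =>
          Polynomial.aeval (X (τ i) : MvPolynomial (Fin n) L) p).prod := by
    have h4 := map_list_prod ((MvPolynomial.map j : MvPolynomial (Fin n) K →+*
      MvPolynomial (Fin n) L).mapMatrix (m := Fin w)) (List.ofFn fun i : Fin n =>
        (M i).map fun p => Polynomial.aeval (X (τ i) : MvPolynomial (Fin n) K) p)
    rw [RingHom.mapMatrix_apply] at h4
    rw [h4, List.map_ofFn]
    congr 2
    funext i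
    simp only [Function.comp_apply, RingHom.mapMatrix_apply]
    ext1 a b
    simp only [Matrix.map_apply]
    rw [Polynomial.aeval_def, Polynomial.aeval_def, Polynomial.hom_eval₂, Polynomial.eval₂_map,
      MvPolynomial.map_X]
    congr 1
    ext c
    simp
  rw [h1]
  congr 1
  funext s
  rw [Function.comp_apply, RingHom.map_mulVec, h3, h2]

theorem RTW_aeval {K L : Type*} [CommRing K] [CommRing L] {n c : ℕ} (j : K →+* L)
    (g : Fin c → MvPolynomial (Fin n) K) (Q : MvPolynomial (Fin c) K) :
    MvPolynomial.map j (aeval g Q) = aeval (fun i => MvPolynomial.map j (g i)) (MvPolynomial.map j Q) := by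
  have h : (MvPolynomial.map j).comp ((aeval g : MvPolynomial (Fin c) K →ₐ[K] MvPolynomial (Fin n) K) :
      MvPolynomial (Fin c) K →+* MvPolynomial (Fin n) K) =
      ((aeval (fun i => MvPolynomial.map j (g i)) : MvPolynomial (Fin c) L →ₐ[L] MvPolynomial (Fin n) L) :
        MvPolynomial (Fin c) L →+* MvPolynomial (Fin n) L).comp (MvPolynomial.map j) := by
    apply MvPolynomial.ringHom_ext
    · intro a
      simp
    · intro i
      simp
  exact DFunLike.congr_fun h Q

theorem RTW_local {K L : Type*} [CommRing K] [CommRing L] {n : ℕ} (τ : Equiv.Perm (Fin n)) (c : ℕ)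
    (j : K →+* L) (P : MvPolynomial (Fin n) K) (h : IsLocal τ c P) : IsLocal τ c (MvPolynomial.map j P) := by
  obtain ⟨g, Q, hg, rfl⟩ := h
  exact ⟨fun i => MvPolynomial.map j (g i), MvPolynomial.map j Q, fun i => RTW_roabp τ c j _ (hg i),
    RTW_aeval j g Q⟩

theorem RTW_sum {K L : Type*} [CommRing K] [CommRing L] {n : ℕ} (c w : ℕ) (j : K →+* L)
    (G : MvPolynomial (Fin n) K) (h : IsSumPow c w G) : IsSumPow c w (MvPolynomial.map j G) := by
  obtain ⟨τ, A, P, κ, a, p, hA, hP, rfl⟩ := h
  refine ⟨τ, fun i => MvPolynomial.map j (A i), fun i => MvPolynomial.map j (P i), fun i => j (κ i), a, p,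
    fun i => RTW_roabp τ w j _ (hA i), fun i => RTW_local τ c j _ (hP i), ?_⟩
  simp only [map_sum, map_mul, map_prod, map_pow, MvPolynomial.map_C]

theorem RTW : RTW_stmt.{u} := by
  intro k _ n c w f F hF hs
  classical
  let G : MvPolynomial (Fin n) (PowerSeries k) :=
    ∑ m ∈ F.support, monomial m (RTF_ps (F.coeff m))
  have hG : ∀ m, G.coeff m = RTF_ps (F.coeff m) := by
    intro m
    simp only [G, coeff_sum, coeff_monomial]
    rw [Finset.sum_ite_eq' F.support m]
    split_ifs with h
    · rfl
    · rw [notMem_support_iff.mp h, RTF_ps_zero]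
  refine ⟨G, ?_, ?_⟩
  · have h1 : MvPolynomial.map (algebraMap (PowerSeries k) (LaurentSeries k)) G =
        MvPolynomial.map (algebraMap (RatFunc k) (LaurentSeries k)) F := by
      ext m
      rw [coeff_map, coeff_map, hG, RTF_ps_map _ (hs m).1]
    rw [h1]
    exact RTW_sum c w _ F hF
  · ext m
    rw [coeff_map, hG, RTF_ps_const, (hs m).2]

end Pool.Agent.WD
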